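import Mathlib

/-!
Definitions for the weighted elliptic problem with quadratic gradient term.
-/

open MeasureTheory Set Filter
open scoped ENNReal Topology ContDiff RealInnerProductSpace

namespace Pool.Agent.Results.MP_ac8703_an

/-- `φ ∈ C_c^∞(Ω)`. -/
structure IsTestFunction {N : ℕ} (Ω : Set (EuclideanSpace ℝ (Fin N)))
    (φ : EuclideanSpace ℝ (Fin N) → ℝ) : Prop where
  smooth : ContDiff ℝ ∞ φ
  compact : HasCompactSupport φ
  support : tsupport φ ⊆ Ω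

/-- `v ∈ H^1_0(Ω)` with weak gradient `G`: both are in `L²(Ω)` and there are `φ_n ∈ C_c^∞(Ω)` with
`φ_n → v` and `∇φ_n → G` in `L²(Ω)`. -/
structure MemH10 {N : ℕ} (Ω : Set (EuclideanSpace ℝ (Fin N)))
    (v : EuclideanSpace ℝ (Fin N) → ℝ)
    (G : EuclideanSpace ℝ (Fin N) → EuclideanSpace ℝ (Fin N)) : Prop where
  memLp : MemLp v 2 (volume.restrict Ω)
  memLp_grad : MemLp G 2 (volume.restrict Ω)
  approx : ∃ φ : ℕ → EuclideanSpace ℝ (Fin N) → ℝ, (∀ n, IsTestFunction Ω (φ n)) ∧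
    Tendsto (fun n => eLpNorm (φ n - v) 2 (volume.restrict Ω)) atTop (𝓝 0) ∧
    Tendsto (fun n => eLpNorm (gradient (φ n) - G) 2 (volume.restrict Ω)) atTop (𝓝 0)

/-- `u ∈ H^1_0(Ω) ∩ L^∞(Ω)` solves `-Δu = λ c u + μ |∇u|² + h` in `Ω` weakly, tested against all
`v ∈ H^1_0(Ω) ∩ L^∞(Ω)` (problem `(P_λ)`). -/
structure IsSolution {N : ℕ} (Ω : Set (EuclideanSpace ℝ (Fin N))) (lam : ℝ)
    (c μ h : EuclideanSpace ℝ (Fin N) → ℝ) (u : EuclideanSpace ℝ (Fin N) → ℝ) : Prop where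
  bounded : MemLp u ∞ (volume.restrict Ω)
  weak : ∃ G : EuclideanSpace ℝ (Fin N) → EuclideanSpace ℝ (Fin N), MemH10 Ω u G ∧
    ∀ (v : EuclideanSpace ℝ (Fin N) → ℝ) (H : EuclideanSpace ℝ (Fin N) → EuclideanSpace ℝ (Fin N)),
      MemH10 Ω v H → MemLp v ∞ (volume.restrict Ω) →
      ∫ x in Ω, ⟪G x, H x⟫ =
        lam * (∫ x in Ω, c x * u x * v x) + (∫ x in Ω, μ x * ‖G x‖ ^ 2 * v x) +
          ∫ x in Ω, h x * v x

/-- The first eigenvalue `γ₁` of the weighted problem `-Δφ = γ c φ`, `φ ∈ H^1_0(Ω)`, in its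
variational form: the infimum of `∫ |∇v|² / ∫ c v²` over `v ∈ H^1_0(Ω)` with `∫ c v² > 0`. -/
noncomputable def firstEigenvalue {N : ℕ} (Ω : Set (EuclideanSpace ℝ (Fin N)))
    (c : EuclideanSpace ℝ (Fin N) → ℝ) : ℝ :=
  sInf {γ : ℝ | ∃ (v : EuclideanSpace ℝ (Fin N) → ℝ)
    (H : EuclideanSpace ℝ (Fin N) → EuclideanSpace ℝ (Fin N)), MemH10 Ω v H ∧
      0 < ∫ x in Ω, c x * v x ^ 2 ∧ γ = (∫ x in Ω, ‖H x‖ ^ 2) / ∫ x in Ω, c x * v x ^ 2}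

end Pool.Agent.Results.MP_ac8703_an
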