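import Pool.Agent.Lib_MP_ac8703_an.Tools

/-!
Radial functions vanishing on the unit circle belong to `H^1_0` of the disc; weak formulation and
ground state inequality for radial data.
-/

open MeasureTheory Set Filter
open scoped ENNReal Topology ContDiff RealInnerProductSpace

namespace Pool.Agent.Results.MP_ac8703_an

/-! ### Smooth truncation of the identity -/

/-- smooth truncation of the identity from below -/
noncomputable def trunc (ε : ℝ) (y : ℝ) : ℝ :=
  ∫ s in (0 : ℝ)..y, Real.smoothTransition (s / ε - 1)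

lemma trunc_cont (ε : ℝ) : Continuous (fun s : ℝ => Real.smoothTransition (s / ε - 1)) :=
  Real.smoothTransition.continuous.comp (by fun_prop)

lemma trunc_hasDerivAt (ε y : ℝ) :
    HasDerivAt (trunc ε) (Real.smoothTransition (y / ε - 1)) y :=
  ((trunc_cont ε).integral_hasStrictDerivAt 0 y).hasDerivAt

lemma trunc_contDiff (ε : ℝ) : ContDiff ℝ ∞ (trunc ε) := by
  rw [contDiff_infty_iff_deriv]
  refine ⟨fun y => (trunc_hasDerivAt ε y).differentiableAt, ?_⟩
  have : deriv (trunc ε) = fun y => Real.smoothTransition (y / ε - 1) := by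
    ext y; exact (trunc_hasDerivAt ε y).deriv
  rw [this]
  exact Real.smoothTransition.contDiff.comp (by fun_prop)

lemma trunc_zero {ε y : ℝ} (hε : 0 < ε) (hy : y ≤ ε) : trunc ε y = 0 := by
  unfold trunc
  refine intervalIntegral.integral_zero_ae ?_
  refine ae_of_all _ fun s hs => ?_
  apply Real.smoothTransition.zero_of_nonpos
  have hsle : s ≤ ε := by
    rcases le_total 0 y with h | h
    · rw [uIoc_of_le h] at hs; exact hs.2.trans hy
    · rw [uIoc_of_ge h] at hs; exact hs.2.trans hε.le
  rw [sub_nonpos, div_le_one hε]; exact hsle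

lemma trunc_le {ε y : ℝ} (hy : 0 ≤ y) : trunc ε y ≤ y := by
  unfold trunc
  have h1 : ∫ s in (0 : ℝ)..y, Real.smoothTransition (s / ε - 1) ≤ ∫ s in (0 : ℝ)..y, (1 : ℝ) :=
    intervalIntegral.integral_mono_on hy ((trunc_cont ε).intervalIntegrable _ _)
      (continuous_const.intervalIntegrable _ _) fun _ _ => Real.smoothTransition.le_one _
  simpa using h1

lemma trunc_nonneg {ε y : ℝ} (hy : 0 ≤ y) : 0 ≤ trunc ε y :=
  intervalIntegral.integral_nonneg hy fun _ _ => Real.smoothTransition.nonneg _

lemma le_trunc {ε y : ℝ} (hε : 0 < ε) (hy : 0 ≤ y) : y - 2 * ε ≤ trunc ε y := by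
  rcases le_total y (2 * ε) with h | h
  · linarith [trunc_nonneg (ε := ε) hy]
  · unfold trunc
    have h1 : ∫ s in (0 : ℝ)..y, Real.smoothTransition (s / ε - 1) =
        (∫ s in (0 : ℝ)..(2 * ε), Real.smoothTransition (s / ε - 1)) +
        ∫ s in (2 * ε)..y, Real.smoothTransition (s / ε - 1) :=
      (intervalIntegral.integral_add_adjacent_intervals ((trunc_cont ε).intervalIntegrable _ _)
        ((trunc_cont ε).intervalIntegrable _ _)).symm
    have h2 : ∫ s in (2 * ε)..y, Real.smoothTransition (s / ε - 1) = ∫ s in (2 * ε)..y, (1 : ℝ) := by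
      refine intervalIntegral.integral_congr fun s hs => ?_
      rw [uIcc_of_le h] at hs
      apply Real.smoothTransition.one_of_one_le
      rw [le_sub_iff_add_le, le_div_iff₀ hε]
      linarith [hs.1]
    have h3 : 0 ≤ ∫ s in (0 : ℝ)..(2 * ε), Real.smoothTransition (s / ε - 1) :=
      intervalIntegral.integral_nonneg (by linarith) fun _ _ => Real.smoothTransition.nonneg _
    rw [h1, h2]
    simp
    linarith

/-! ### Measure-theoretic preliminaries on the disc -/

instance : IsFiniteMeasure (volume.restrict disc) :=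
  ⟨by rw [Measure.restrict_apply MeasurableSet.univ, univ_inter]; exact measure_ball_lt_top⟩

lemma memLp_of_bound {F : Type*} [NormedAddCommGroup F] {f : E2 → F}
    (hm : AEStronglyMeasurable f (volume.restrict disc)) (C : ℝ) (hb : ∀ x ∈ disc, ‖f x‖ ≤ C)
    (p : ℝ≥0∞) : MemLp f p (volume.restrict disc) :=
  MemLp.of_bound hm C (ae_restrict_of_forall_mem measurableSet_ball hb)

lemma norm_lt_one {x : E2} (hx : x ∈ disc) : ‖x‖ < 1 := by simpa [disc] using hx

lemma continuous_radG {z : ℝ → ℝ} (hz : Continuous z) : Continuous (radG z) := by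
  unfold radG
  fun_prop

lemma continuous_rad {f : ℝ → ℝ} (hf : Continuous f) : Continuous (rad f) := by
  unfold rad
  fun_prop

lemma norm_radG_le {z : ℝ → ℝ} {x : E2} (hx : x ∈ disc) : ‖radG z x‖ ≤ 2 * |z (‖x‖ ^ 2)| := by
  unfold radG
  rw [norm_smul, Real.norm_eq_abs, abs_mul, abs_two]
  have := (norm_lt_one hx).le
  have h0 : 0 ≤ 2 * |z (‖x‖ ^ 2)| := by positivity
  nlinarith [norm_nonneg x]

lemma normSq_mem_Icc {x : E2} (hx : x ∈ disc) : ‖x‖ ^ 2 ∈ Icc (0 : ℝ) 1 :=
  ⟨(normSq_mem hx).1, (normSq_mem hx).2.le⟩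

lemma exists_bound {z : ℝ → ℝ} (hz : Continuous z) : ∃ M : ℝ, 0 ≤ M ∧ ∀ s ∈ Icc (0 : ℝ) 1, |z s| ≤ M := by
  obtain ⟨M, hM⟩ := isCompact_Icc.exists_bound_of_continuousOn (s := Icc (0 : ℝ) 1) hz.continuousOn
  refine ⟨M, ?_, fun s hs => by simpa using hM s hs⟩
  have := hM 0 (by simp)
  exact (norm_nonneg _).trans this

lemma memLp_rad {f : ℝ → ℝ} (hf : Continuous f) (p : ℝ≥0∞) :
    MemLp (rad f) p (volume.restrict disc) := by
  obtain ⟨M, -, hM⟩ := exists_bound hf
  exact memLp_of_bound (continuous_rad hf).aestronglyMeasurable M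
    (fun x hx => by simpa [rad] using hM _ (normSq_mem_Icc hx)) p

lemma memLp_radG {z : ℝ → ℝ} (hz : Continuous z) (p : ℝ≥0∞) :
    MemLp (radG z) p (volume.restrict disc) := by
  obtain ⟨M, -, hM⟩ := exists_bound hz
  refine memLp_of_bound (continuous_radG hz).aestronglyMeasurable (2 * M)
    (fun x hx => (norm_radG_le hx).trans ?_) p
  have := hM _ (normSq_mem_Icc hx)
  linarith

/-! ### Membership in `H^1_0` -/

lemma memH10_rad {q q' : ℝ → ℝ} (hq : ContDiff ℝ ∞ q) (hq' : ∀ s, HasDerivAt q (q' s) s)
    (hq'c : Continuous q') :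
    MemH10 disc (rad fun s => (1 - s) * q s) (radG fun s => -q s + (1 - s) * q' s) := by
  have hqc : Continuous q := hq.continuous
  refine ⟨memLp_rad (by fun_prop) 2, memLp_radG (by fun_prop) 2, ?_⟩
  obtain ⟨M, hM0, hM⟩ := exists_bound hqc
  obtain ⟨M', hM'0, hM'⟩ := exists_bound hq'c
  set ε : ℕ → ℝ := fun n => 1 / ((n : ℝ) + 1) with hε
  have hε0 : ∀ n, 0 < ε n := fun n => by simp only [hε]; positivity
  have hεlim : Tendsto ε atTop (𝓝 0) := tendsto_one_div_add_atTop_nhds_zero_nat
  set f : ℕ → ℝ → ℝ := fun n s => trunc (ε n) (1 - s) * q s with hf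
  set f' : ℕ → ℝ → ℝ := fun n s =>
    -Real.smoothTransition ((1 - s) / ε n - 1) * q s + trunc (ε n) (1 - s) * q' s with hf'
  have hder : ∀ n s, HasDerivAt (f n) (f' n s) s := by
    intro n s
    have h1 : HasDerivAt (fun s : ℝ => 1 - s) (-1) s := by
      simpa using (hasDerivAt_id s).const_sub 1
    have h2 := ((trunc_hasDerivAt (ε n) (1 - s)).comp s h1).mul (hq' s)
    refine h2.congr_deriv ?_
    simp only [hf', Function.comp]
    ring
  have hgrad : ∀ n x, gradient (rad (f n)) x = radG (f' n) x := fun n x =>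
    (rad_hasGradientAt (hder n _)).gradient
  have hf'c : ∀ n, Continuous (f' n) := by
    intro n
    have h1 : Continuous (fun s : ℝ => Real.smoothTransition ((1 - s) / ε n - 1)) :=
      Real.smoothTransition.continuous.comp (by fun_prop)
    have h2 : Continuous (fun s : ℝ => trunc (ε n) (1 - s)) :=
      (trunc_contDiff (ε n)).continuous.comp (by fun_prop)
    simp only [hf']
    fun_prop
  refine ⟨fun n => rad (f n), ?_, ?_, ?_⟩
  · intro n
    have hsub : Function.support (rad (f n)) ⊆ {x : E2 | ε n ≤ 1 - ‖x‖ ^ 2} := by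
      intro x hx
      by_contra hcon
      apply hx
      have : 1 - ‖x‖ ^ 2 ≤ ε n := (not_le.1 hcon).le
      simp only [rad, hf, trunc_zero (hε0 n) this, zero_mul]
    have hclosed : IsClosed {x : E2 | ε n ≤ 1 - ‖x‖ ^ 2} :=
      isClosed_le continuous_const (by fun_prop)
    have htsub : tsupport (rad (f n)) ⊆ {x : E2 | ε n ≤ 1 - ‖x‖ ^ 2} :=
      closure_minimal hsub hclosed
    have hdisc : {x : E2 | ε n ≤ 1 - ‖x‖ ^ 2} ⊆ disc := by
      intro x hx
      have h1 : ε n ≤ 1 - ‖x‖ ^ 2 := hx
      have h2 := hε0 n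
      have h3 : ‖x‖ ^ 2 < 1 := by linarith
      have h4 : ‖x‖ < 1 := by
        nlinarith [norm_nonneg x]
      simpa [disc] using h4
    refine ⟨?_, ?_, htsub.trans hdisc⟩
    · have h1 : ContDiff ℝ ∞ (f n) :=
        ((trunc_contDiff (ε n)).comp (contDiff_const.sub contDiff_id)).mul hq
      exact h1.comp (contDiff_norm_sq ℝ)
    · exact (isCompact_closedBall (0 : E2) 1).of_isClosed_subset (isClosed_tsupport _)
        ((htsub.trans hdisc).trans Metric.ball_subset_closedBall)
  · refine tendsto_eLpNorm_zero (fun n => ?_) M (fun n => ?_) ?_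
    · refine ((continuous_rad (f := f n) ?_).sub (continuous_rad (by fun_prop))).aestronglyMeasurable
      have h2 : Continuous (fun s : ℝ => trunc (ε n) (1 - s)) :=
        (trunc_contDiff (ε n)).continuous.comp (by fun_prop)
      simp only [hf]; fun_prop
    · refine ae_restrict_of_forall_mem measurableSet_ball fun x hx => ?_
      have hs := normSq_mem_Icc hx
      set s := ‖x‖ ^ 2
      have h1 : (rad (f n) - rad fun s => (1 - s) * q s) x = (trunc (ε n) (1 - s) - (1 - s)) * q s := by
        simp only [Pi.sub_apply, rad, hf]; ring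
      rw [h1, norm_mul, Real.norm_eq_abs, Real.norm_eq_abs]
      have h2 : |trunc (ε n) (1 - s) - (1 - s)| ≤ 1 := by
        rw [abs_le]
        have h3 := trunc_le (ε := ε n) (y := 1 - s) (by linarith [hs.2])
        have h4 := trunc_nonneg (ε := ε n) (y := 1 - s) (by linarith [hs.2])
        constructor <;> linarith [hs.1]
      calc |trunc (ε n) (1 - s) - (1 - s)| * |q s| ≤ 1 * M :=
            mul_le_mul h2 (hM s hs) (abs_nonneg _) zero_le_one
        _ = M := one_mul M
    · refine ae_restrict_of_forall_mem measurableSet_ball fun x hx => ?_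
      have hs := normSq_mem_Icc hx
      set s := ‖x‖ ^ 2
      have h1 : ∀ n, (rad (f n) - rad fun s => (1 - s) * q s) x =
          (trunc (ε n) (1 - s) - (1 - s)) * q s := by
        intro n
        simp only [Pi.sub_apply, rad, hf]; ring
      simp_rw [h1]
      have h2 : Tendsto (fun n => trunc (ε n) (1 - s) - (1 - s)) atTop (𝓝 0) := by
        refine squeeze_zero_norm (a := fun n => 2 * ε n) (fun n => ?_) (by simpa using hεlim.const_mul 2)
        rw [Real.norm_eq_abs, abs_le]
        have h3 := trunc_le (ε := ε n) (y := 1 - s) (by linarith [hs.2])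
        have h4 := le_trunc (hε0 n) (y := 1 - s) (by linarith [hs.2])
        have h5 := hε0 n
        constructor <;> linarith
      simpa using h2.mul_const (q s)
  · have hgr : ∀ n, gradient (rad (f n)) = radG (f' n) := fun n => funext (hgrad n)
    simp_rw [hgr]
    have hdiff : ∀ n x, (radG (f' n) - radG fun s => -q s + (1 - s) * q' s) x =
        (2 * ((1 - Real.smoothTransition ((1 - ‖x‖ ^ 2) / ε n - 1)) * q (‖x‖ ^ 2) +
          (trunc (ε n) (1 - ‖x‖ ^ 2) - (1 - ‖x‖ ^ 2)) * q' (‖x‖ ^ 2))) • x := by
      intro n x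
      simp only [Pi.sub_apply, radG, hf']
      rw [← sub_smul]
      congr 1
      ring
    refine tendsto_eLpNorm_zero (fun n => ?_) (2 * (M + M')) (fun n => ?_) ?_
    · exact ((continuous_radG (hf'c n)).sub (continuous_radG (by fun_prop))).aestronglyMeasurable
    · refine ae_restrict_of_forall_mem measurableSet_ball fun x hx => ?_
      have hs := normSq_mem_Icc hx
      rw [hdiff]
      set s := ‖x‖ ^ 2
      rw [norm_smul, Real.norm_eq_abs, abs_mul, abs_two]
      have h2 : |trunc (ε n) (1 - s) - (1 - s)| ≤ 1 := by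
        rw [abs_le]
        have h3 := trunc_le (ε := ε n) (y := 1 - s) (by linarith [hs.2])
        have h4 := trunc_nonneg (ε := ε n) (y := 1 - s) (by linarith [hs.2])
        constructor <;> linarith [hs.1]
      have h5 : |1 - Real.smoothTransition ((1 - s) / ε n - 1)| ≤ 1 := by
        rw [abs_le]
        have h6 := Real.smoothTransition.nonneg ((1 - s) / ε n - 1)
        have h7 := Real.smoothTransition.le_one ((1 - s) / ε n - 1)
        constructor <;> linarith
      have h8 : |(1 - Real.smoothTransition ((1 - s) / ε n - 1)) * q s +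
          (trunc (ε n) (1 - s) - (1 - s)) * q' s| ≤ M + M' := by
        refine (abs_add_le _ _).trans ?_
        rw [abs_mul, abs_mul]
        have h9 := mul_le_mul h5 (hM s hs) (abs_nonneg _) zero_le_one
        have h10 := mul_le_mul h2 (hM' s hs) (abs_nonneg _) zero_le_one
        linarith
      have h11 := (norm_lt_one hx).le
      calc 2 * |(1 - Real.smoothTransition ((1 - s) / ε n - 1)) * q s +
          (trunc (ε n) (1 - s) - (1 - s)) * q' s| * ‖x‖ ≤ 2 * (M + M') * 1 := by gcongr
        _ = _ := mul_one _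
    · refine ae_restrict_of_forall_mem measurableSet_ball fun x hx => ?_
      have hs := normSq_mem hx
      simp_rw [hdiff]
      set s := ‖x‖ ^ 2
      have h2 : Tendsto (fun n => trunc (ε n) (1 - s) - (1 - s)) atTop (𝓝 0) := by
        refine squeeze_zero_norm (a := fun n => 2 * ε n) (fun n => ?_) (by simpa using hεlim.const_mul 2)
        rw [Real.norm_eq_abs, abs_le]
        have h3 := trunc_le (ε := ε n) (y := 1 - s) (by linarith [hs.2])
        have h4 := le_trunc (hε0 n) (y := 1 - s) (by linarith [hs.2])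
        have h5 := hε0 n
        constructor <;> linarith
      have h3 : Tendsto (fun n => 1 - Real.smoothTransition ((1 - s) / ε n - 1)) atTop (𝓝 0) := by
        refine tendsto_const_nhds.congr' ?_
        have hpos : 0 < (1 - s) / 2 := by linarith [hs.2]
        filter_upwards [hεlim.eventually (gt_mem_nhds hpos)] with n hn
        rw [Real.smoothTransition.one_of_one_le, sub_self]
        rw [le_sub_iff_add_le, le_div_iff₀ (hε0 n)]
        linarith
      have h4 : Tendsto (fun n => 2 * ((1 - Real.smoothTransition ((1 - s) / ε n - 1)) * q s +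
          (trunc (ε n) (1 - s) - (1 - s)) * q' s)) atTop (𝓝 0) := by
        have := ((h3.mul_const (q s)).add (h2.mul_const (q' s))).const_mul 2
        simpa using this
      simpa using h4.smul_const x

/-! ### Weak formulation -/

lemma memLp_test {φ : E2 → ℝ} (hφ : IsTestFunction disc φ) (p : ℝ≥0∞) :
    MemLp φ p (volume.restrict disc) :=
  (hφ.smooth.continuous.memLp_of_hasCompactSupport hφ.compact).restrict _

lemma continuous_gradient {φ : E2 → ℝ} (hφ : ContDiff ℝ 1 φ) : Continuous (gradient φ) := by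
  unfold gradient
  exact (InnerProductSpace.toDual ℝ E2).symm.continuous.comp (hφ.continuous_fderiv (by simp))

lemma gradient_eq_zero {φ : E2 → ℝ} {x : E2} (hx : x ∉ tsupport φ) : gradient φ x = 0 := by
  have h1 : φ =ᶠ[𝓝 x] 0 := notMem_tsupport_iff_eventuallyEq.1 hx
  unfold gradient
  rw [h1.fderiv_eq]
  simp

lemma memLp_grad_test {φ : E2 → ℝ} (hφ : IsTestFunction disc φ) (p : ℝ≥0∞) :
    MemLp (gradient φ) p (volume.restrict disc) := by
  have h1 : HasCompactSupport (gradient φ) := by
    refine HasCompactSupport.intro hφ.compact fun x hx => gradient_eq_zero hx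
  exact ((continuous_gradient (hφ.smooth.of_le (by exact_mod_cast le_top))).memLp_of_hasCompactSupport
    h1).restrict _

/-- weak formulation of the divergence of a radial field against `H^1_0` functions -/
lemma weak_radG {z z' : ℝ → ℝ} (hz : ∀ s, HasDerivAt z (z' s) s) (hz' : Continuous z')
    {v : E2 → ℝ} {H : E2 → E2} (hv : MemH10 disc v H) :
    ∫ x in disc, ⟪radG z x, H x⟫ =
      ∫ x in disc, rad (fun s => -(4 * z s + 4 * s * z' s)) x * v x := by
  have hzc : Continuous z := continuous_iff_continuousAt.2 fun s => (hz s).continuousAt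
  obtain ⟨φ, hφ, h1, h2⟩ := hv.approx
  have t1 : Tendsto (fun n => ∫ x in disc, ⟪radG z x, gradient (φ n) x⟫) atTop
      (𝓝 (∫ x in disc, ⟪radG z x, H x⟫)) :=
    tendsto_integral_inner (f := fun _ => radG z) (g := radG z) (k := fun n => gradient (φ n))
      (fun _ => memLp_radG hzc 2) (memLp_radG hzc 2) (fun n => memLp_grad_test (hφ n) 2)
      hv.memLp_grad (eLpNorm_const_tendsto _) h2
  set L := rad (fun s => -(4 * z s + 4 * s * z' s)) with hL
  have hLm : MemLp L 2 (volume.restrict disc) := memLp_rad (by fun_prop) 2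
  have t2 : Tendsto (fun n => ∫ x in disc, ⟪L x, φ n x⟫) atTop (𝓝 (∫ x in disc, ⟪L x, v x⟫)) :=
    tendsto_integral_inner (f := fun _ => L) (g := L) (k := φ)
      (fun _ => hLm) hLm (fun n => memLp_test (hφ n) 2)
      hv.memLp (eLpNorm_const_tendsto _) h1
  have heq : ∀ n, ∫ x in disc, ⟪radG z x, gradient (φ n) x⟫ = ∫ x in disc, ⟪L x, φ n x⟫ := by
    intro n
    have hsm : ContDiff ℝ 1 (φ n) := (hφ n).smooth.of_le (by exact_mod_cast le_top)
    have h3 := ibp_radG (z := z) (z' := z') (fun s _ => hz s) hz'.continuousOn hsm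
      (hφ n).compact (hφ n).support
    rw [setIntegral_eq_integral_of_forall_compl_eq_zero, h3,
      setIntegral_eq_integral_of_forall_compl_eq_zero, ← integral_neg]
    · refine integral_congr_ae (ae_of_all _ fun x => ?_)
      simp only [hL, rad, real_inner_eq_re_inner, RCLike.inner_apply, conj_trivial]
      simp
      ring
    · intro x hx
      have : φ n x = 0 := image_eq_zero_of_notMem_tsupport fun h => hx ((hφ n).support h)
      rw [this]; simp
    · intro x hx
      rw [gradient_eq_zero fun h => hx ((hφ n).support h), inner_zero_right]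
  have t3 := tendsto_nhds_unique (t1.congr heq) t2
  rw [t3]
  refine integral_congr_ae (ae_of_all _ fun x => ?_)
  simp [mul_comm]

end Pool.Agent.Results.MP_ac8703_an
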