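import Pool.Agent.Lib_MP_ac8703_an.Defs

/-!
L² limits, radial vector fields, integration by parts in the unit disc.
-/

open MeasureTheory Set Filter
open scoped ENNReal Topology ContDiff RealInnerProductSpace

namespace Pool.Agent.Results.MP_ac8703_an

/-! ### `L²` limits -/

lemma inner_toLp {α F : Type*} [MeasurableSpace α] {μ : Measure α} [NormedAddCommGroup F]
    [InnerProductSpace ℝ F] {a b : α → F} (ha : MemLp a 2 μ) (hb : MemLp b 2 μ) :
    inner ℝ (ha.toLp a) (hb.toLp b) = ∫ x, ⟪a x, b x⟫ ∂μ := by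
  rw [L2.inner_def]
  refine integral_congr_ae ?_
  filter_upwards [ha.coeFn_toLp, hb.coeFn_toLp] with x h1 h2
  rw [h1, h2]

lemma tendsto_integral_inner {α F : Type*} [MeasurableSpace α] {μ : Measure α}
    [NormedAddCommGroup F] [InnerProductSpace ℝ F] {f k : ℕ → α → F} {g l : α → F}
    (hf : ∀ n, MemLp (f n) 2 μ) (hg : MemLp g 2 μ) (hk : ∀ n, MemLp (k n) 2 μ) (hl : MemLp l 2 μ)
    (h1 : Tendsto (fun n => eLpNorm (f n - g) 2 μ) atTop (𝓝 0))
    (h2 : Tendsto (fun n => eLpNorm (k n - l) 2 μ) atTop (𝓝 0)) :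
    Tendsto (fun n => ∫ x, ⟪f n x, k n x⟫ ∂μ) atTop (𝓝 (∫ x, ⟪g x, l x⟫ ∂μ)) := by
  have t1 := (Lp.tendsto_Lp_iff_tendsto_eLpNorm'' f hf g hg).2 h1
  have t2 := (Lp.tendsto_Lp_iff_tendsto_eLpNorm'' k hk l hl).2 h2
  have t3 := Filter.Tendsto.inner (𝕜 := ℝ) t1 t2
  rw [inner_toLp hg hl] at t3
  refine t3.congr fun n => ?_
  exact inner_toLp (hf n) (hk n)

lemma eLpNorm_const_tendsto {α F : Type*} [MeasurableSpace α] {μ : Measure α}
    [NormedAddCommGroup F] (k : α → F) :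
    Tendsto (fun _ : ℕ => eLpNorm (k - k) 2 μ) atTop (𝓝 0) := by
  simp

/-- bounded convergence in `L²` -/
lemma tendsto_eLpNorm_zero {α F : Type*} [MeasurableSpace α] {μ : Measure α} [IsFiniteMeasure μ]
    [NormedAddCommGroup F] {f : ℕ → α → F} (hm : ∀ n, AEStronglyMeasurable (f n) μ) (C : ℝ)
    (hb : ∀ n, ∀ᵐ x ∂μ, ‖f n x‖ ≤ C) (hl : ∀ᵐ x ∂μ, Tendsto (fun n => f n x) atTop (𝓝 0)) :
    Tendsto (fun n => eLpNorm (f n) 2 μ) atTop (𝓝 0) := by
  have h0 : (2 : ℝ≥0∞) ≠ 0 := two_ne_zero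
  have ht : (2 : ℝ≥0∞) ≠ ⊤ := ENNReal.ofNat_ne_top
  have key : Tendsto (fun n => ∫⁻ x, ‖f n x‖ₑ ^ (2 : ℝ≥0∞).toReal ∂μ) atTop (𝓝 0) := by
    have h1 : Tendsto (fun n => ∫⁻ x, ‖f n x‖ₑ ^ (2 : ℝ≥0∞).toReal ∂μ) atTop
        (𝓝 (∫⁻ x, 0 ∂μ)) := by
      refine tendsto_lintegral_of_dominated_convergence'
        (fun _ => ENNReal.ofReal C ^ (2 : ℝ≥0∞).toReal) ?_ ?_ ?_ ?_
      · intro n
        exact (hm n).enorm.pow_const _
      · intro n
        filter_upwards [hb n] with x hx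
        refine ENNReal.rpow_le_rpow ?_ (by positivity)
        rw [← ofReal_norm]
        exact ENNReal.ofReal_le_ofReal hx
      · rw [lintegral_const]
        exact ENNReal.mul_ne_top (ENNReal.rpow_ne_top_of_nonneg (by positivity)
          ENNReal.ofReal_ne_top) (measure_ne_top μ _)
      · filter_upwards [hl] with x hx
        have h2 : Tendsto (fun n => ‖f n x‖ₑ) atTop (𝓝 0) := by
          have h := (continuous_enorm.tendsto (0 : F)).comp hx
          rw [enorm_zero] at h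
          exact h
        have h3 := h2.ennrpow_const (2 : ℝ≥0∞).toReal
        simpa using h3
    simpa using h1
  have h4 := key.ennrpow_const (1 / (2 : ℝ≥0∞).toReal)
  have h5 : (0 : ℝ≥0∞) ^ (1 / (2 : ℝ≥0∞).toReal) = 0 := by
    rw [ENNReal.zero_rpow_of_pos]; simp
  rw [h5] at h4
  refine h4.congr fun n => ?_
  rw [eLpNorm_eq_lintegral_rpow_enorm_toReal h0 ht]

/-! ### Radial functions and fields in the plane -/

/-- the plane -/
abbrev E2 := EuclideanSpace ℝ (Fin 2)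

/-- the open unit disc -/
abbrev disc : Set E2 := Metric.ball 0 1

/-- radial function -/
noncomputable def rad (f : ℝ → ℝ) (x : E2) : ℝ := f (‖x‖ ^ 2)

/-- radial field `2 z(|x|²) x` -/
noncomputable def radG (z : ℝ → ℝ) (x : E2) : E2 := (2 * z (‖x‖ ^ 2)) • x

lemma hasFDerivAt_normSq (x : E2) :
    HasFDerivAt (fun x : E2 => ‖x‖ ^ 2) (2 • innerSL ℝ x) x :=
  (hasStrictFDerivAt_norm_sq x).hasFDerivAt

lemma rad_hasGradientAt {f : ℝ → ℝ} {f' : ℝ → ℝ} {x : E2}
    (hf : HasDerivAt f (f' (‖x‖ ^ 2)) (‖x‖ ^ 2)) : HasGradientAt (rad f) (radG f' x) x := by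
  rw [hasGradientAt_iff_hasFDerivAt]
  have h := hf.comp_hasFDerivAt x (hasFDerivAt_normSq x)
  refine h.congr_fderiv ?_
  ext v
  simp only [radG, smul_apply, innerSL_apply_apply, InnerProductSpace.toDual_apply_apply,
    real_inner_smul_left, smul_eq_mul, nsmul_eq_mul]
  push_cast
  ring

/-- basis vector -/
noncomputable abbrev eb (k : Fin 2) : E2 := EuclideanSpace.basisFun (Fin 2) ℝ k

lemma eb_apply (k : Fin 2) : (eb k) k = 1 := by simp [eb]

lemma inner_eb (x : E2) (k : Fin 2) : ⟪x, eb k⟫ = x k := by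
  simp [eb, EuclideanSpace.inner_single_right]

lemma normSq_lt_one {x : E2} (hx : x ∈ disc) : ‖x‖ ^ 2 < 1 := by
  have h1 : ‖x‖ < 1 := by simpa [disc] using hx
  have h2 : 0 ≤ ‖x‖ := norm_nonneg x
  nlinarith

lemma normSq_mem {x : E2} (hx : x ∈ disc) : ‖x‖ ^ 2 ∈ Ico (0 : ℝ) 1 :=
  ⟨by positivity, normSq_lt_one hx⟩

lemma radG_coord_hasLineDerivAt {z z' : ℝ → ℝ} {x : E2} (k : Fin 2)
    (hz : HasDerivAt z (z' (‖x‖ ^ 2)) (‖x‖ ^ 2)) :
    HasLineDerivAt ℝ (fun x => (radG z x) k)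
      (2 * z (‖x‖ ^ 2) + 4 * z' (‖x‖ ^ 2) * x k ^ 2) x (eb k) := by
  have h1 : HasFDerivAt (fun x : E2 => 2 * z (‖x‖ ^ 2))
      ((2 : ℝ) • (z' (‖x‖ ^ 2) • (2 • innerSL ℝ x))) x :=
    ((hz.comp_hasFDerivAt x (hasFDerivAt_normSq x))).const_mul 2
  have h2 : HasFDerivAt (fun x : E2 => x k) (EuclideanSpace.proj k : E2 →L[ℝ] ℝ) x :=
    (EuclideanSpace.proj k : E2 →L[ℝ] ℝ).hasFDerivAt
  have h3 := (h1.mul h2).hasLineDerivAt (eb k)
  have h4 : (fun x => (radG z x) k) = fun x : E2 => 2 * z (‖x‖ ^ 2) * x k := by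
    ext x; simp [radG]
  rw [h4]
  have h5 : (EuclideanSpace.proj k : E2 →L[ℝ] ℝ) (eb k) = 1 := eb_apply k
  have h6 : innerSL ℝ x (eb k) = x k := inner_eb x k
  have h7 : ((2 * z (‖x‖ ^ 2)) • (EuclideanSpace.proj k : E2 →L[ℝ] ℝ) +
      x k • ((2 : ℝ) • (z' (‖x‖ ^ 2) • (2 • innerSL ℝ x)))) (eb k) =
      2 * z (‖x‖ ^ 2) + 4 * z' (‖x‖ ^ 2) * x k ^ 2 := by
    simp only [smul_apply, add_apply, h5, h6, smul_eq_mul, nsmul_eq_mul]
    push_cast
    ring
  rw [← h7]
  exact h3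

lemma gradient_apply (φ : E2 → ℝ) (x : E2) (k : Fin 2) :
    (gradient φ x) k = fderiv ℝ φ x (eb k) := by
  rw [← inner_eb, ← InnerProductSpace.toDual_apply_apply (𝕜 := ℝ), gradient,
    LinearIsometryEquiv.apply_symm_apply]

lemma integrable_of_compact_support' {K : Set E2} (hK : IsCompact K)
    {φ : E2 → ℝ} (hφ : ContinuousOn φ K) (h0 : ∀ x, x ∉ K → φ x = 0) :
    Integrable φ :=
  (hφ.integrableOn_compact hK).integrable_of_forall_notMem_eq_zero h0

/-- Integration by parts for a radial field against a compactly supported function in the disc. -/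
lemma ibp_radG {z z' : ℝ → ℝ} (hz : ∀ s ∈ Ico (0 : ℝ) 1, HasDerivAt z (z' s) s)
    (hz' : ContinuousOn z' (Ico (0 : ℝ) 1)) {g : E2 → ℝ} (hg : ContDiff ℝ 1 g)
    (hgc : HasCompactSupport g) (hgs : tsupport g ⊆ disc) :
    ∫ x, ⟪radG z x, gradient g x⟫ =
      - ∫ x, (4 * z (‖x‖ ^ 2) + 4 * ‖x‖ ^ 2 * z' (‖x‖ ^ 2)) * g x := by
  set K := tsupport g with hK
  have hKc : IsCompact K := hgc
  have hgd : Differentiable ℝ g := hg.differentiable (by simp)
  have hzc : ContinuousOn z (Ico (0 : ℝ) 1) := fun s hs => (hz s hs).continuousAt.continuousWithinAt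
  have hnsq : Continuous (fun x : E2 => ‖x‖ ^ 2) := by fun_prop
  have hmaps : MapsTo (fun x : E2 => ‖x‖ ^ 2) K (Ico (0 : ℝ) 1) := fun x hx => normSq_mem (hgs hx)
  have hzK : ContinuousOn (fun x : E2 => z (‖x‖ ^ 2)) K := hzc.comp hnsq.continuousOn hmaps
  have hz'K : ContinuousOn (fun x : E2 => z' (‖x‖ ^ 2)) K := hz'.comp hnsq.continuousOn hmaps
  have hxk : ∀ k : Fin 2, Continuous (fun x : E2 => x k) :=
    fun k => (EuclideanSpace.proj k : E2 →L[ℝ] ℝ).continuous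
  have hdg : ∀ k : Fin 2, Continuous (fun x => fderiv ℝ g x (eb k)) := fun k =>
    (hg.continuous_fderiv (by simp)).clm_apply continuous_const
  have hg0 : ∀ x, x ∉ K → g x = 0 := fun x hx => image_eq_zero_of_notMem_tsupport hx
  have hdg0 : ∀ x, x ∉ K → fderiv ℝ g x = 0 := by
    intro x hx
    have h1 : g =ᶠ[𝓝 x] 0 := notMem_tsupport_iff_eventuallyEq.1 hx
    rw [h1.fderiv_eq]
    simp
  -- coordinatewise
  have hrad : ∀ k : Fin 2, ∀ x : E2, (radG z x) k = 2 * z (‖x‖ ^ 2) * x k := by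
    intro k x; simp [radG]
  have i1 : ∀ k : Fin 2, Integrable (fun x => (radG z x) k * fderiv ℝ g x (eb k)) := by
    intro k
    refine integrable_of_compact_support' hKc ?_ (fun x hx => by simp [hdg0 x hx])
    simp_rw [hrad k]
    exact ((continuousOn_const.mul hzK).mul (hxk k).continuousOn).mul (hdg k).continuousOn
  have i2 : ∀ k : Fin 2, Integrable (fun x : E2 =>
      (2 * z (‖x‖ ^ 2) + 4 * z' (‖x‖ ^ 2) * x k ^ 2) * g x) := by
    intro k
    refine integrable_of_compact_support' hKc ?_ (fun x hx => by simp [hg0 x hx])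
    exact ((continuousOn_const.mul hzK).add ((continuousOn_const.mul hz'K).mul
      ((hxk k).pow 2).continuousOn)).mul hg.continuous.continuousOn
  have i3 : ∀ k : Fin 2, Integrable (fun x => (radG z x) k * g x) := by
    intro k
    refine integrable_of_compact_support' hKc ?_ (fun x hx => by simp [hg0 x hx])
    simp_rw [hrad k]
    exact ((continuousOn_const.mul hzK).mul (hxk k).continuousOn).mul hg.continuous.continuousOn
  have ibp : ∀ k : Fin 2, ∫ x, (radG z x) k * fderiv ℝ g x (eb k) =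
      - ∫ x : E2, (2 * z (‖x‖ ^ 2) + 4 * z' (‖x‖ ^ 2) * x k ^ 2) * g x := by
    intro k
    have := integral_bilinear_hasLineDerivAt_right_eq_neg_left_of_integrable
      (μ := (volume : Measure E2)) (f := fun x => (radG z x) k)
      (f' := fun x => 2 * z (‖x‖ ^ 2) + 4 * z' (‖x‖ ^ 2) * x k ^ 2) (g := g)
      (g' := fun x => fderiv ℝ g x (eb k)) (v := eb k)
      (B := ContinuousLinearMap.mul ℝ ℝ)
      (by simpa only [ContinuousLinearMap.mul_apply'] using i2 k)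
      (by simpa only [ContinuousLinearMap.mul_apply'] using i1 k)
      (by simpa only [ContinuousLinearMap.mul_apply'] using i3 k)
      (fun x hx => radG_coord_hasLineDerivAt k (hz _ (normSq_mem (hgs hx))))
      (fun x _ => (hgd x).hasFDerivAt.hasLineDerivAt (eb k))
    simpa only [ContinuousLinearMap.mul_apply'] using this
  have hsum : ∀ x, ⟪radG z x, gradient g x⟫ = (radG z x) 0 * fderiv ℝ g x (eb 0) +
      (radG z x) 1 * fderiv ℝ g x (eb 1) := by
    intro x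
    rw [← gradient_apply g x 0, ← gradient_apply g x 1, PiLp.inner_apply,
      Fin.sum_univ_two]
    simp [mul_comm]
  simp_rw [hsum]
  rw [integral_add (i1 0) (i1 1), ibp 0, ibp 1, ← neg_add, ← integral_add (i2 0) (i2 1)]
  congr 1
  refine integral_congr_ae (ae_of_all _ fun x => ?_)
  have hn : ‖x‖ ^ 2 = x 0 ^ 2 + x 1 ^ 2 := by
    rw [EuclideanSpace.norm_sq_eq, Fin.sum_univ_two]; simp
  simp only
  rw [hn]; ring

end Pool.Agent.Results.MP_ac8703_an
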